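import Mathlib

/-!
# Ring homomorphisms into finite fields: extension from an order, adjoining a root
-/

set_option autoImplicit false

namespace Pool.Agent.K1H24.RG

open Polynomial NumberField

/-! ### Extension from a subring of finite index -/

section Ext

variable {R S k : Type} [CommRing R] [CommRing S] [Field k]

lemma comp_inj (j : R →+* S) (N : ℕ) (hN : ∀ s : S, ∃ r : R, j r = N * s)
    (hk : (N : k) ≠ 0) : Function.Injective (fun φ : S →+* k => φ.comp j) := by
  intro φ ψ h
  ext s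
  obtain ⟨r, hr⟩ := hN s
  have h1 : φ (j r) = ψ (j r) := RingHom.congr_fun h r
  rw [hr, map_mul, map_mul, map_natCast, map_natCast] at h1
  exact mul_left_cancel₀ hk h1

lemma comp_surj [IsDomain S] (j : R →+* S) (hj : Function.Injective j) (N : ℕ)
    (hN : ∀ s : S, ∃ r : R, j r = N * s)
    (hk : (N : k) ≠ 0) : Function.Surjective (fun φ : S →+* k => φ.comp j) := by
  intro ψ
  choose r hr using hN
  have hadd : ∀ s t, r (s + t) = r s + r t := by
    intro s t
    apply hj
    rw [map_add, hr, hr, hr]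
    ring
  have hmul : ∀ s t, (N : R) * r (s * t) = r s * r t := by
    intro s t
    apply hj
    rw [map_mul, map_mul, hr, hr, hr, map_natCast]
    ring
  have hone : r 1 = N := by
    apply hj
    rw [hr, map_natCast, mul_one]
  have hzero : r 0 = 0 := by
    apply hj
    rw [hr, map_zero, mul_zero]
  have hjx : ∀ x, r (j x) = N * x := by
    intro x
    apply hj
    rw [hr, map_mul, map_natCast]
  refine ⟨{ toFun := fun s => ψ (r s) / N
            map_one' := ?_
            map_mul' := ?_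
            map_zero' := ?_
            map_add' := ?_ }, ?_⟩
  · rw [hone, map_natCast, div_self hk]
  · intro s t
    have h1 := congrArg ψ (hmul s t)
    rw [map_mul, map_mul, map_natCast] at h1
    field_simp
    linear_combination h1
  · simp [hzero]
  · intro s t
    rw [hadd, map_add, add_div]
  · ext x
    simp only [RingHom.comp_apply, RingHom.coe_mk, MonoidHom.coe_mk, OneHom.coe_mk]
    rw [hjx, map_mul, map_natCast, mul_div_cancel_left₀ _ hk]

lemma card_comp [IsDomain S] (j : R →+* S) (hj : Function.Injective j) (N : ℕ)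
    (hN : ∀ s : S, ∃ r : R, j r = N * s) (hk : (N : k) ≠ 0) :
    Nat.card (S →+* k) = Nat.card (R →+* k) :=
  Nat.card_congr (Equiv.ofBijective _ ⟨comp_inj j N hN hk, comp_surj j hj N hN hk⟩)

end Ext

/-! ### Adjoining a root of `X ^ e - b` -/

section Adj

variable {A k : Type} [CommRing A] [Field k]

/-- the polynomial `X ^ e - b` -/
noncomputable def fe (A : Type) [CommRing A] (e b : ℕ) : A[X] := X ^ e - C (b : A)

lemma fe_monic {e : ℕ} (he : e ≠ 0) (b : ℕ) : (fe A e b).Monic := monic_X_pow_sub_C _ he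

lemma eval_fe (φ : A →+* k) (e b : ℕ) (y : k) : (fe A e b).eval₂ φ y = y ^ e - b := by
  simp [fe]

noncomputable def adjEquiv (e b : ℕ) :
    (AdjoinRoot (fe A e b) →+* k) ≃ (A →+* k) × {y : k // y ^ e = (b : k)} where
  toFun ψ := (ψ.comp (AdjoinRoot.of _), ⟨ψ (AdjoinRoot.root _), by
    have h := AdjoinRoot.eval₂_root (fe A e b)
    have h2 := congrArg ψ h
    rw [map_zero, hom_eval₂, eval_fe] at h2
    exact sub_eq_zero.mp h2⟩)
  invFun z := AdjoinRoot.lift z.1 z.2.1 (by rw [eval_fe, z.2.2, sub_self])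
  left_inv ψ := by
    apply AdjoinRoot.ringHom_ext
    · ext x
      simp
    · simp
  right_inv z := by
    obtain ⟨φ, y, hy⟩ := z
    refine Prod.ext ?_ ?_
    · ext x
      simp
    · apply Subtype.ext
      simp

lemma card_adj (e b : ℕ) :
    Nat.card (AdjoinRoot (fe A e b) →+* k) =
      Nat.card (A →+* k) * Nat.card {y : k // y ^ e = (b : k)} := by
  rw [Nat.card_congr (adjEquiv e b), Nat.card_prod]

end Adj

/-! ### Roots of `X ^ e - b` and of cyclotomic polynomials in `ZMod p` -/

section Roots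

open Classical in
lemma card_roots {p d e : ℕ} [Fact p.Prime] (hdp : d ∣ p - 1) (he : e ∣ d) (b : ℕ)
    (hb : (b : ZMod p) ≠ 0) :
    Nat.card {y : ZMod p // y ^ e = (b : ZMod p)} =
      if ∃ y : ZMod p, y ^ e = (b : ZMod p) then e else 0 := by
  have hp1 : 0 < p - 1 := Nat.sub_pos_of_lt (Fact.out : p.Prime).one_lt
  have hep : e ∣ p - 1 := he.trans hdp
  have he0 : 0 < e := Nat.pos_of_dvd_of_pos hep hp1
  -- a primitive `e`-th root of unity
  obtain ⟨g, hg⟩ := IsCyclic.exists_generator (α := (ZMod p)ˣ)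
  have hog : orderOf g = p - 1 := by
    rw [orderOf_eq_card_of_forall_mem_zpowers hg, Nat.card_eq_fintype_card, ZMod.card_units]
  have hprim : IsPrimitiveRoot ((g : ZMod p) ^ ((p - 1) / e)) e := by
    have h1 : IsPrimitiveRoot (g : ZMod p) (p - 1) := by
      rw [IsPrimitiveRoot.coe_units_iff, ← hog]
      exact IsPrimitiveRoot.orderOf g
    exact h1.pow hp1 (Nat.div_mul_cancel hep).symm
  have h2 := hprim.card_nthRoots (b : ZMod p)
  have h3 := hprim.nthRoots_nodup (a := (b : ZMod p)) hb
  have h4 : Nat.card {y : ZMod p // y ^ e = (b : ZMod p)} = (nthRoots e (b : ZMod p)).card := by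
    rw [Nat.card_eq_fintype_card, Fintype.card_subtype, ← Multiset.toFinset_card_of_nodup h3]
    congr 1
    ext y
    simp [mem_nthRoots he0]
  rw [h4, h2]
  congr

lemma card_prim {p d : ℕ} [Fact p.Prime] (hd : 0 < d) (hpd : ¬ p ∣ d) :
    Nat.card {y : ZMod p // (cyclotomic d ℤ).eval₂ (Int.castRingHom (ZMod p)) y = 0} =
      if d ∣ p - 1 then d.totient else 0 := by
  have hp1 : 0 < p - 1 := Nat.sub_pos_of_lt (Fact.out : p.Prime).one_lt
  have : NeZero (d : ZMod p) := ⟨by rwa [Ne, ZMod.natCast_eq_zero_iff]⟩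
  have key : ∀ y : ZMod p, (cyclotomic d ℤ).eval₂ (Int.castRingHom (ZMod p)) y = 0 ↔
      IsPrimitiveRoot y d := by
    intro y
    rw [← eval_map, map_cyclotomic_int, ← IsRoot.def, isRoot_cyclotomic_iff]
  have h1 : Nat.card {y : ZMod p // (cyclotomic d ℤ).eval₂ (Int.castRingHom (ZMod p)) y = 0} =
      (primitiveRoots d (ZMod p)).card := by
    rw [Nat.card_eq_fintype_card, Fintype.card_subtype]
    congr 1
    ext y
    simp [key, mem_primitiveRoots hd]
  rw [h1]
  split_ifs with h
  · obtain ⟨g, hg⟩ := IsCyclic.exists_generator (α := (ZMod p)ˣ)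
    have hog : orderOf g = p - 1 := by
      rw [orderOf_eq_card_of_forall_mem_zpowers hg, Nat.card_eq_fintype_card, ZMod.card_units]
    have h1 : IsPrimitiveRoot (g : ZMod p) (p - 1) := by
      rw [IsPrimitiveRoot.coe_units_iff, ← hog]
      exact IsPrimitiveRoot.orderOf g
    exact (h1.pow hp1 (Nat.div_mul_cancel h).symm).card_primitiveRoots
  · rw [Finset.card_eq_zero, Finset.eq_empty_iff_forall_notMem]
    intro y hy
    rw [mem_primitiveRoots hd] at hy
    apply h
    have hy0 : y ≠ 0 := hy.ne_zero hd.ne'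
    exact hy.dvd_of_pow_eq_one _ (ZMod.pow_card_sub_one_eq_one hy0)

lemma card_cyc (K₀ : Type) [Field K₀] [NumberField K₀] {p d : ℕ} [NeZero d]
    [IsCyclotomicExtension {d} ℚ K₀] [Fact p.Prime] (hpd : ¬ p ∣ d) :
    Nat.card (𝓞 K₀ →+* ZMod p) = if d ∣ p - 1 then d.totient else 0 := by
  rw [← card_prim (Nat.pos_of_ne_zero (NeZero.ne d)) hpd]
  have hζ := IsCyclotomicExtension.zeta_spec d ℚ K₀
  let pb := hζ.integralPowerBasis
  have e1 : (𝓞 K₀ →+* ZMod p) ≃ (𝓞 K₀ →ₐ[ℤ] ZMod p) := RingHom.equivIntAlgHom _ _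
  have e2 := pb.liftEquiv (S' := ZMod p)
  have h3 : minpoly ℤ pb.gen = cyclotomic d ℤ := by
    rw [hζ.integralPowerBasis_gen, cyclotomic_eq_minpoly hζ (NeZero.pos _),
      ← RingOfIntegers.minpoly_coe]
    rfl
  rw [Nat.card_congr (e1.trans e2)]
  refine Nat.card_congr (Equiv.subtypeEquivRight fun y => ?_)
  rw [h3]
  rfl

end Roots

end Pool.Agent.K1H24.RG
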