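import Mathlib

/-!
# `X ^ e - b` is irreducible over a field with enough roots of unity
-/

set_option autoImplicit false

namespace Pool.Agent.K1H24.RG

open Polynomial

/-- Kummer: if `K` contains the `e`-th roots of unity and `b` is not an `r`-th power for any prime
`r ∣ e`, then `X ^ e - b` is irreducible. -/
theorem irreducible_pow_sub {K : Type} [Field K] {e : ℕ} (he : 0 < e) {ζ : K}
    (hζ : IsPrimitiveRoot ζ e) {b : K} (hb : b ≠ 0)
    (hr : ∀ r : ℕ, r.Prime → r ∣ e → ¬ ∃ c : K, c ^ r = b) :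
    Irreducible (X ^ e - C b : K[X]) := by
  have hfm : (X ^ e - C b : K[X]).Monic := monic_X_pow_sub_C _ he.ne'
  have hfd : (X ^ e - C b : K[X]).natDegree = e := natDegree_X_pow_sub_C
  let Ω := AlgebraicClosure K
  obtain ⟨β, hβ⟩ := IsAlgClosed.exists_pow_nat_eq (algebraMap K Ω b) he
  have hβ0 : β ≠ 0 := by
    rintro rfl
    rw [zero_pow he.ne'] at hβ
    exact hb ((map_eq_zero_iff _ (algebraMap K Ω).injective).mp hβ.symm)
  have hint : IsIntegral K β := Algebra.IsIntegral.isIntegral β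
  set g := minpoly K β with hg
  have hgm : g.Monic := minpoly.monic hint
  have hdvd : g ∣ X ^ e - C b := minpoly.dvd K β (by simp [hβ])
  have hgirr : Irreducible g := minpoly.irreducible hint
  -- the constant coefficient of `g`
  have hroots : ∀ z ∈ (g.map (algebraMap K Ω)).roots, ∃ i : ℕ, z = algebraMap K Ω (ζ ^ i) * β := by
    intro z hz
    have h1 : aeval z g = 0 := by
      rw [mem_roots (map_ne_zero hgm.ne_zero), IsRoot.def, eval_map_algebraMap] at hz
      exact hz
    have h2 : aeval z (X ^ e - C b : K[X]) = 0 := aeval_eq_zero_of_dvd_aeval_eq_zero hdvd h1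
    simp only [map_sub, map_pow, aeval_X, aeval_C, sub_eq_zero] at h2
    have h3 : (z / β) ^ e = 1 := by
      rw [div_pow, h2, hβ, div_self]
      rw [← hβ]
      exact pow_ne_zero _ hβ0
    have hζ' : IsPrimitiveRoot (algebraMap K Ω ζ) e := hζ.map_of_injective (algebraMap K Ω).injective
    have : NeZero e := ⟨he.ne'⟩
    obtain ⟨i, -, hi⟩ := hζ'.eq_pow_of_pow_eq_one h3
    refine ⟨i, ?_⟩
    rw [map_pow, hi, div_mul_cancel₀ _ hβ0]
  have hprod : ∀ s : Multiset Ω, (∀ z ∈ s, ∃ i : ℕ, z = algebraMap K Ω (ζ ^ i) * β) →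
      ∃ i : ℕ, s.prod = algebraMap K Ω (ζ ^ i) * β ^ (Multiset.card s) := by
    intro s
    induction s using Multiset.induction with
    | empty => intro _; exact ⟨0, by simp⟩
    | cons a s ih =>
      intro h
      obtain ⟨i, hi⟩ := ih fun z hz => h z (Multiset.mem_cons_of_mem hz)
      obtain ⟨j, hj⟩ := h a (Multiset.mem_cons_self a s)
      refine ⟨i + j, ?_⟩
      rw [Multiset.prod_cons, hi, hj, Multiset.card_cons, pow_add, pow_succ, map_mul]
      ring
  have hsplit : (g.map (algebraMap K Ω)).Splits := IsAlgClosed.splits _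
  have hcard : Multiset.card (g.map (algebraMap K Ω)).roots = g.natDegree := by
    rw [← hsplit.natDegree_eq_card_roots, natDegree_map]
  obtain ⟨i, hi⟩ := hprod _ hroots
  have hcoef := hsplit.coeff_zero_eq_prod_roots_of_monic (hgm.map _)
  rw [hi, hcard, natDegree_map, coeff_map] at hcoef
  -- `β ^ m ∈ K`
  set m := g.natDegree with hm
  have hm0 : 0 < m := minpoly.natDegree_pos hint
  have hmem : ∃ c : K, algebraMap K Ω c = β ^ m := by
    have hζ0 : ζ ^ i ≠ 0 := pow_ne_zero _ (hζ.ne_zero he.ne')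
    refine ⟨(-1) ^ m * (ζ ^ i)⁻¹ * g.coeff 0, ?_⟩
    have h1 : algebraMap K Ω (ζ ^ i) ≠ 0 := by
      rw [Ne, map_eq_zero_iff _ (algebraMap K Ω).injective]
      exact hζ0
    rw [map_mul, map_mul, hcoef, map_inv₀, map_pow, map_neg, map_one]
    have h2 : ((-1 : Ω) ^ m) * (-1) ^ m = 1 := by
      rw [← mul_pow, neg_one_mul, neg_neg, one_pow]
    calc (-1) ^ m * ((algebraMap K Ω) (ζ ^ i))⁻¹ * ((-1) ^ m * ((algebraMap K Ω) (ζ ^ i) * β ^ m)) =
        ((-1) ^ m * (-1) ^ m) * (((algebraMap K Ω) (ζ ^ i))⁻¹ * (algebraMap K Ω) (ζ ^ i)) * β ^ m := by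
          ring
      _ = β ^ m := by rw [h2, inv_mul_cancel₀ h1]; ring
  -- `β ^ gcd ∈ K`
  have hgcd : ∃ c : K, algebraMap K Ω c = β ^ (Nat.gcd m e) := by
    obtain ⟨c, hc⟩ := hmem
    refine ⟨c ^ (Nat.gcdA m e) * b ^ (Nat.gcdB m e), ?_⟩
    rw [map_mul, map_zpow₀, map_zpow₀, hc, ← hβ, ← zpow_natCast, ← zpow_natCast, ← zpow_mul,
      ← zpow_mul, ← zpow_add₀ hβ0, ← Nat.gcd_eq_gcd_ab, zpow_natCast]
  have hme : m = e := by
    by_contra hne
    have hle : m ≤ e := by
      have := natDegree_le_of_dvd hdvd hfm.ne_zero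
      rwa [hfd] at this
    have hlt : Nat.gcd m e < e := lt_of_le_of_lt (Nat.gcd_le_left e hm0) (lt_of_le_of_ne hle hne)
    obtain ⟨t, ht⟩ := Nat.gcd_dvd_right m e
    have hg0 : 0 < Nat.gcd m e := Nat.gcd_pos_of_pos_left _ hm0
    have ht1 : t ≠ 1 := by
      rintro rfl
      omega
    obtain ⟨r, hrp, u, hu⟩ := Nat.exists_prime_and_dvd ht1
    obtain ⟨c, hc⟩ := hgcd
    rw [hu] at ht
    have hre : r ∣ e := by
      rw [ht]
      exact Dvd.intro_left _ (by ring : Nat.gcd m e * u * r = Nat.gcd m e * (r * u))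
    apply hr r hrp hre
    refine ⟨c ^ u, (algebraMap K Ω).injective ?_⟩
    rw [← pow_mul, map_pow, hc, ← pow_mul, ← hβ, mul_comm u r]
    exact congrArg (fun n => β ^ n) ht.symm
  have hfg : X ^ e - C b = g := by
    obtain ⟨h, hh⟩ := hdvd
    have hhm : h.Monic := by
      have := hfm
      rw [hh] at this
      exact hgm.of_mul_monic_left this
    have hd : h.natDegree = 0 := by
      have h1 := hgm.natDegree_mul hhm
      rw [← hh, hfd, ← hm, hme] at h1
      omega
    rw [hhm.natDegree_eq_zero.mp hd, mul_one] at hh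
    exact hh
  rw [hfg]
  exact hgirr

end Pool.Agent.K1H24.RG
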