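import Mathlib

/-!
# An integer which is not an `r`-th power at a prime `q ∤ d` is not an `r`-th power in `ℚ(ζ_d)`
-/

set_option autoImplicit false

namespace Pool.Agent.K1H24.RG

open NumberField Ideal

lemma emult_prod {K : Finset ℕ} (hK : ∀ q ∈ K, q.Prime) (v : ℕ → ℕ) {q : ℕ} (hq : q ∈ K) :
    emultiplicity (q : ℤ) ((∏ l ∈ K, l ^ v l : ℕ) : ℤ) = v q := by
  have hqp : Prime (q : ℤ) := Nat.prime_iff_prime_int.mp (hK q hq)
  push_cast
  rw [Finset.emultiplicity_prod hqp, Finset.sum_eq_single q]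
  · rw [emultiplicity_pow hqp, (FiniteMultiplicity.of_prime_left hqp hqp.ne_zero).emultiplicity_self]
    simp
  · intro l hl hlq
    rw [emultiplicity_pow hqp, emultiplicity_eq_zero.mpr, mul_zero]
    rw [Int.natCast_dvd_natCast, (Nat.prime_dvd_prime_iff_eq (hK q hq) (hK l hl))]
    exact fun h => hlq h.symm
  · intro h; exact absurd hq h

theorem not_pow (K₀ : Type) [Field K₀] [NumberField K₀] {d : ℕ} [NeZero d]
    [IsCyclotomicExtension {d} ℚ K₀] {K : Finset ℕ} (hK : ∀ q ∈ K, q.Prime ∧ ¬ q ∣ d) (v : ℕ → ℕ)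
    {r : ℕ} (hr : r.Prime) (h : ∃ q ∈ K, ¬ r ∣ v q) :
    ¬ ∃ c : K₀, c ^ r = ((∏ l ∈ K, l ^ v l : ℕ) : K₀) := by
  rintro ⟨c, hc⟩
  obtain ⟨q, hqK, hqv⟩ := h
  obtain ⟨hqp, hqd⟩ := hK q hqK
  have : Fact q.Prime := ⟨hqp⟩
  set b : ℕ := ∏ l ∈ K, l ^ v l with hb
  have hb0 : b ≠ 0 := by
    rw [hb, Finset.prod_ne_zero_iff]
    intro l hl
    exact pow_ne_zero _ (hK l hl).1.ne_zero
  have hcint : IsIntegral ℤ c := by
    refine IsIntegral.of_pow hr.pos ?_
    rw [hc]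
    exact isIntegral_algebraMap (R := ℤ) (x := (b : ℤ)) |> fun h => by simpa using h
  obtain ⟨C, hC⟩ : ∃ C : 𝓞 K₀, algebraMap (𝓞 K₀) K₀ C = c := ⟨⟨c, hcint⟩, rfl⟩
  have hCr : C ^ r = (b : 𝓞 K₀) := by
    apply RingOfIntegers.coe_injective
    rw [map_pow, hC, hc]
    simp
  have hv : Irreducible (span {(q : ℤ)}) := by
    refine Prime.irreducible ?_
    rw [Ideal.prime_iff_isPrime]
    · rw [Ideal.span_singleton_prime (by exact_mod_cast hqp.ne_zero)]
      exact Nat.prime_iff_prime_int.mp hqp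
    · rw [Ne, Ideal.span_singleton_eq_bot]
      exact_mod_cast hqp.ne_zero
  have hvp : (span {(q : ℤ)}).IsPrime := Ideal.isPrime_of_prime hv.prime
  obtain ⟨⟨Q, hQp, hQl⟩⟩ := (span {(q : ℤ)}).nonempty_primesOver (S := 𝓞 K₀)
  have hQ0 : Q ≠ ⊥ := Ideal.ne_bot_of_liesOver_of_ne_bot hv.ne_zero Q
  have hram := IsCyclotomicExtension.Rat.ramificationIdx_eq_of_not_dvd (m := d) q K₀ Q hqd
  have hQirr : Irreducible Q := (Ideal.prime_of_isPrime hQ0 hQp).irreducible
  have hbI : span {(b : ℤ)} ≠ ⊥ := by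
    rw [Ne, Ideal.span_singleton_eq_bot]
    exact_mod_cast hb0
  have key := IsDedekindDomain.emultiplicity_map_eq_ramificationIdx'_mul (S := 𝓞 K₀) hbI hv hQirr hQ0
  rw [Ideal.ramificationIdx'_eq_ramificationIdx _ _ hv.ne_zero, hram, Ideal.map_span,
    Set.image_singleton] at key
  have h1 : algebraMap ℤ (𝓞 K₀) (b : ℤ) = C ^ r := by
    rw [hCr]; simp
  have h2 : emultiplicity (span {(q : ℤ)}) (span {(b : ℤ)}) = emultiplicity (q : ℤ) (b : ℤ) :=
    Ideal.emultiplicity_eq_emultiplicity_span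
  rw [h1, ← Ideal.span_singleton_pow, emultiplicity_pow hQirr.prime, h2,
    emult_prod (fun q hq => (hK q hq).1) v hqK, Nat.cast_one, one_mul] at key
  have hC0 : C ≠ 0 := by
    rintro rfl
    rw [zero_pow hr.ne_zero] at hCr
    exact hb0 (by exact_mod_cast hCr.symm)
  have hfin : FiniteMultiplicity Q (span {C}) := by
    refine FiniteMultiplicity.of_prime_left hQirr.prime ?_
    rw [Ne, Ideal.zero_eq_bot, Ideal.span_singleton_eq_bot]
    exact hC0
  rw [hfin.emultiplicity_eq_multiplicity] at key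
  apply hqv
  exact ⟨multiplicity Q (span {C}), by exact_mod_cast key.symm⟩

end Pool.Agent.K1H24.RG
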