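import Mathlib
import Pool.Agent.K1H24.RG.DenA
import Pool.Agent.K1H24.RG.DenB
import Pool.Agent.K1H24.RG.DenC

/-!
# The Kummer extension and the number of homomorphisms of its ring of integers into `ZMod p`
-/

set_option autoImplicit false

namespace Pool.Agent.K1H24.RG

open Polynomial NumberField

section Index

variable (K₀ : Type) [Field K₀] [NumberField K₀] (e b : ℕ) (he : e ≠ 0)
  [hirr : Fact (Irreducible (X ^ e - C (b : K₀) : K₀[X]))]

/-- the Kummer extension `K₀(b^(1/e))` -/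
abbrev KL : Type := AdjoinRoot (X ^ e - C (b : K₀) : K₀[X])

omit [NumberField K₀] in
include he in
lemma kl_finite : Module.Finite K₀ (KL K₀ e b) :=
  (AdjoinRoot.powerBasis' (monic_X_pow_sub_C (b : K₀) he)).finite

include he in
lemma kl_numberField : NumberField (KL K₀ e b) := by
  have := kl_finite K₀ e b he
  have : CharZero (KL K₀ e b) := charZero_of_injective_algebraMap (algebraMap K₀ (KL K₀ e b)).injective
  have h : Module.Finite ℚ (KL K₀ e b) := Module.Finite.trans K₀ _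
  exact { to_charZero := this, to_finiteDimensional := h }

omit [NumberField K₀] in
lemma root_pow : (AdjoinRoot.root (X ^ e - C (b : K₀) : K₀[X])) ^ e = (b : KL K₀ e b) := by
  have h := AdjoinRoot.eval₂_root (X ^ e - C (b : K₀) : K₀[X])
  simp only [eval₂_sub, eval₂_pow, eval₂_X, map_natCast, eval₂_natCast] at h
  exact sub_eq_zero.mp h

omit [NumberField K₀] in
include he in
lemma root_int : IsIntegral ℤ (AdjoinRoot.root (X ^ e - C (b : K₀) : K₀[X])) := by
  refine IsIntegral.of_pow (Nat.pos_of_ne_zero he) ?_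
  rw [root_pow]
  exact isIntegral_algebraMap (R := ℤ) (x := (b : ℤ)) |> fun h => by simpa using h

end Index

/-- existence of the Kummer order -/
theorem exists_kummer (K₀ : Type) [Field K₀] [NumberField K₀] (e b : ℕ) (he : e ≠ 0)
    (hirr : Irreducible (X ^ e - C (b : K₀) : K₀[X])) :
    ∃ (L : Type) (_ : Field L) (_ : NumberField L) (j : AdjoinRoot (fe (𝓞 K₀) e b) →+* 𝓞 L) (N : ℕ),
      Function.Injective j ∧ N ≠ 0 ∧ ∀ s : 𝓞 L, ∃ r, j r = N * s := by
  classical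
  have : Fact (Irreducible (X ^ e - C (b : K₀) : K₀[X])) := ⟨hirr⟩
  have hNF : NumberField (KL K₀ e b) := kl_numberField K₀ e b he
  let L := KL K₀ e b
  let β : 𝓞 L := ⟨AdjoinRoot.root _, root_int K₀ e b he⟩
  have hβ : β ^ e = (b : 𝓞 L) := by
    apply RingOfIntegers.coe_injective
    rw [map_pow]
    change (AdjoinRoot.root _ : L) ^ e = _
    rw [root_pow]
    simp
  let i₀ : 𝓞 K₀ →+* 𝓞 L := algebraMap (𝓞 K₀) (𝓞 L)
  have hlift : (fe (𝓞 K₀) e b).eval₂ i₀ β = 0 := by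
    simp only [fe, eval₂_sub, eval₂_pow, eval₂_X, map_natCast, eval₂_natCast, hβ, sub_self]
  let j : AdjoinRoot (fe (𝓞 K₀) e b) →+* 𝓞 L := AdjoinRoot.lift i₀ β hlift
  -- `j (mk g)` in `L`
  have hjmk : ∀ g : (𝓞 K₀)[X], algebraMap (𝓞 L) L (j (AdjoinRoot.mk _ g)) =
      AdjoinRoot.mk _ (g.map (algebraMap (𝓞 K₀) K₀)) := by
    intro g
    have h1 : j (AdjoinRoot.mk _ g) = g.eval₂ i₀ β := AdjoinRoot.lift_mk hlift g
    rw [h1, hom_eval₂]
    have h2 : ((algebraMap (𝓞 L) L).comp i₀) = (AdjoinRoot.of _).comp (algebraMap (𝓞 K₀) K₀) := by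
      ext x
      rfl
    have h3 : (algebraMap (𝓞 L) L) β = AdjoinRoot.root _ := rfl
    rw [h2, h3, ← eval₂_map]
    have h4 := AdjoinRoot.aeval_eq (f := (X ^ e - C (b : K₀) : K₀[X]))
      (g.map (algebraMap (𝓞 K₀) K₀))
    rwa [aeval_def, AdjoinRoot.algebraMap_eq] at h4
  refine ⟨L, inferInstance, hNF, j, ?_⟩
  have hinj : Function.Injective j := by
    rw [injective_iff_map_eq_zero]
    intro z hz
    induction z using AdjoinRoot.induction_on with
    | ih g =>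
      have h1 := hjmk g
      rw [hz, map_zero] at h1
      have h2 := AdjoinRoot.mk_eq_zero.mp h1.symm
      have h3 : (X ^ e - C (b : K₀) : K₀[X]) = (fe (𝓞 K₀) e b).map (algebraMap (𝓞 K₀) K₀) := by
        simp [fe]
      rw [h3, Polynomial.map_dvd_map _ RingOfIntegers.coe_injective (fe_monic he b)] at h2
      exact AdjoinRoot.mk_eq_zero.mpr h2
  -- multiples
  have hpoly : ∀ g : K₀[X], ∃ n : ℕ, n ≠ 0 ∧ ∃ g₀ : (𝓞 K₀)[X],
      g₀.map (algebraMap (𝓞 K₀) K₀) = (n : K₀[X]) * g := by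
    intro g
    induction g using Polynomial.induction_on' with
    | add f g hf hg =>
      obtain ⟨n, hn, f₀, hf₀⟩ := hf
      obtain ⟨m, hm, g₀, hg₀⟩ := hg
      refine ⟨n * m, mul_ne_zero hn hm, (m : (𝓞 K₀)[X]) * f₀ + (n : (𝓞 K₀)[X]) * g₀, ?_⟩
      rw [Polynomial.map_add, Polynomial.map_mul, Polynomial.map_mul, hf₀, hg₀,
        Polynomial.map_natCast, Polynomial.map_natCast]
      push_cast
      ring
    | monomial i c =>
      have halg : IsAlgebraic ℤ c := by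
        have := Algebra.IsAlgebraic.isAlgebraic (R := ℚ) c
        exact (IsFractionRing.isAlgebraic_iff ℤ ℚ K₀).mpr this
      obtain ⟨y, hy, hyint⟩ := halg.exists_integral_multiple
      obtain ⟨a, ha⟩ : ∃ a : 𝓞 K₀, algebraMap (𝓞 K₀) K₀ a = (y.natAbs : K₀) * c := by
        have h1 : IsIntegral ℤ ((y.natAbs : K₀) * c) := by
          rcases Int.natAbs_eq y with h | h
          · rw [h] at hyint
            simpa using hyint
          · rw [h] at hyint
            have h2 := hyint.neg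
            simpa using h2
        exact ⟨⟨_, h1⟩, rfl⟩
      refine ⟨y.natAbs, by simpa using hy, monomial i a, ?_⟩
      rw [map_monomial, ha, ← C_mul_monomial, C_eq_natCast]
  have hmult : ∀ x : 𝓞 L, ∃ n : ℕ, n ≠ 0 ∧ ∃ r, j r = n * x := by
    intro x
    obtain ⟨g, hg⟩ := AdjoinRoot.mk_surjective (algebraMap (𝓞 L) L x)
    obtain ⟨n, hn, g₀, hg₀⟩ := hpoly g
    refine ⟨n, hn, AdjoinRoot.mk _ g₀, ?_⟩
    apply RingOfIntegers.coe_injective
    have e1 : AdjoinRoot.mk (X ^ e - C (b : K₀) : K₀[X]) ((n : ℕ) : K₀[X]) = ((n : ℕ) : L) :=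
      map_natCast (AdjoinRoot.mk _) n
    have e2 : algebraMap (𝓞 L) L ((n : ℕ) : 𝓞 L) = ((n : ℕ) : L) := map_natCast _ n
    rw [hjmk, hg₀, map_mul, hg, map_mul, e1, e2]
  obtain ⟨T, hT⟩ := (Module.Finite.fg_top : (⊤ : Submodule ℤ (𝓞 L)).FG)
  choose n hn r hr using hmult
  refine ⟨∏ t ∈ T, n t, hinj, ?_, ?_⟩
  · rw [Finset.prod_ne_zero_iff]
    exact fun t _ => hn t
  · intro s
    have hs : s ∈ Submodule.span ℤ (T : Set (𝓞 L)) := by rw [hT]; trivial
    induction hs using Submodule.span_induction with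
    | mem x hx =>
      refine ⟨((∏ t ∈ T.erase x, n t : ℕ) : AdjoinRoot (fe (𝓞 K₀) e b)) * r x, ?_⟩
      have e1 : j ((∏ t ∈ T.erase x, n t : ℕ) : AdjoinRoot (fe (𝓞 K₀) e b)) =
        ((∏ t ∈ T.erase x, n t : ℕ) : 𝓞 L) := map_natCast j _
      rw [map_mul, e1, hr, ← Finset.mul_prod_erase T n hx, Nat.cast_mul]
      ring
    | zero => exact ⟨0, by simp⟩
    | add x y _ _ hx hy =>
      obtain ⟨a, ha⟩ := hx
      obtain ⟨c, hc⟩ := hy
      exact ⟨a + c, by rw [map_add, ha, hc]; ring⟩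
    | smul a x _ hx =>
      obtain ⟨c, hc⟩ := hx
      exact ⟨a • c, by rw [map_zsmul, hc, mul_smul_comm]⟩

/-- The number field `L = ℚ(ζ_d, b^(1/e))` and the number of homomorphisms `𝓞 L → ZMod p`. -/
theorem exists_field (K₀ : Type) [Field K₀] [NumberField K₀] (d e : ℕ) [NeZero d]
    [IsCyclotomicExtension {d} ℚ K₀] (hd : 1 ≤ d) (hed : e ∣ d) (K : Finset ℕ)
    (hK : ∀ q ∈ K, q.Prime ∧ ¬ q ∣ d) (v : ℕ → ℕ)
    (hv : ∀ r : ℕ, r.Prime → r ∣ e → ∃ q ∈ K, ¬ r ∣ v q) :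
    ∃ (L : Type) (_ : Field L) (_ : NumberField L) (D : ℕ), D ≠ 0 ∧ ∀ p : ℕ, p.Prime → ¬ p ∣ D →
      ∀ [Decidable (p % d = 1 % d ∧ ∃ y : ZMod p, y ^ e = ((∏ q ∈ K, q ^ v q : ℕ) : ZMod p))],
      Nat.card (𝓞 L →+* ZMod p) =
        if p % d = 1 % d ∧ ∃ y : ZMod p, y ^ e = ((∏ q ∈ K, q ^ v q : ℕ) : ZMod p) then
          d.totient * e else 0 := by
  have he0 : 0 < e := Nat.pos_of_dvd_of_pos hed hd
  set b : ℕ := ∏ q ∈ K, q ^ v q with hb
  have hb0 : b ≠ 0 := by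
    rw [hb, Finset.prod_ne_zero_iff]
    intro l hl
    exact pow_ne_zero _ (hK l hl).1.ne_zero
  have hζ := IsCyclotomicExtension.zeta_spec d ℚ K₀
  have hζe : IsPrimitiveRoot ((IsCyclotomicExtension.zeta d ℚ K₀) ^ (d / e)) e :=
    hζ.pow hd (Nat.div_mul_cancel hed).symm
  have hirr : Irreducible (X ^ e - C (b : K₀) : K₀[X]) := by
    refine irreducible_pow_sub he0 hζe (by exact_mod_cast hb0) ?_
    intro r hr hre
    exact not_pow K₀ hK v hr (hv r hr hre)
  obtain ⟨L, hF, hNF, j, N, hj, hN, hjN⟩ := exists_kummer K₀ e b he0.ne' hirr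
  refine ⟨L, hF, hNF, N * d * b, mul_ne_zero (mul_ne_zero hN (by omega)) hb0, ?_⟩
  intro p hp hpD _
  have : Fact p.Prime := ⟨hp⟩
  have hpN : ¬ p ∣ N := fun h => hpD ((h.mul_right d).mul_right b)
  have hpd : ¬ p ∣ d := fun h => hpD ((h.mul_left N).mul_right b)
  have hpb : ¬ p ∣ b := fun h => hpD (h.mul_left _)
  have h1 : Nat.card (𝓞 L →+* ZMod p) = Nat.card (AdjoinRoot (fe (𝓞 K₀) e b) →+* ZMod p) :=
    card_comp j hj N hjN (by rwa [Ne, ZMod.natCast_eq_zero_iff])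
  have hmod : d ∣ p - 1 ↔ p % d = 1 % d := by
    rw [← Nat.modEq_iff_dvd' hp.one_lt.le]
    exact ⟨fun h => h.symm, fun h => h.symm⟩
  rw [h1, card_adj, card_cyc K₀ hpd]
  by_cases hc : d ∣ p - 1
  · classical
    rw [if_pos hc, card_roots hc hed b (by rwa [Ne, ZMod.natCast_eq_zero_iff])]
    by_cases hy : ∃ y : ZMod p, y ^ e = (b : ZMod p)
    · rw [if_pos hy, if_pos ⟨hmod.mp hc, hy⟩]
    · rw [if_neg hy, if_neg (fun h => hy h.2), mul_zero]
  · rw [if_neg hc, if_neg (fun h => hc (hmod.mpr h.1)), zero_mul]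

end Pool.Agent.K1H24.RG
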