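import Mathlib
import Pool.Agent.K1H76.RG.Stm
import Pool.Agent.K1H24.RG.DenD
import Pool.Agent.H484R2.Pit

/-!
# Piece A3 (`S_DEN`) of the project RG: natural density of the primes `p ≡ 1 (mod d)` modulo which a
product of primes is an `e`-th power
-/

set_option autoImplicit false

namespace Pool.Agent.K1H24.RG

open Filter Finset Topology NumberField Pool.Agent.K1H76.RG

theorem t_DEN : S_DEN := by
  classical
  intro d e hd hed K hK v hv
  have hd0 : NeZero d := ⟨by omega⟩
  have hcyc : IsCyclotomicExtension {d} ℚ (CyclotomicField d ℚ) :=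
    CyclotomicField.isCyclotomicExtension d ℚ
  have he0 : 0 < e := Nat.pos_of_dvd_of_pos hed hd
  obtain ⟨L, _, _, D, hD, hcard⟩ := exists_field (CyclotomicField d ℚ) d e hd hed K hK v hv
  set P : ℕ → Prop := fun p => p % d = 1 % d ∧
      ∃ y : ZMod p, y ^ e = ((∏ q ∈ K, q ^ v q : ℕ) : ZMod p) with hP
  set A : ℕ → ℝ := fun x => ∑ p ∈ Pr x, (Nat.card (𝓞 L →+* ZMod p) : ℝ) with hA
  set B : ℕ → ℝ := fun x => (#((Pr x).filter P) : ℝ) with hB
  set c : ℝ := (d.totient : ℝ) * e with hc
  have hc0 : 0 < c := by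
    rw [hc]
    have : 0 < d.totient := Nat.totient_pos.mpr hd
    positivity
  have h1 : Tendsto (fun x => A x / (Nat.primeCounting x : ℝ)) atTop (𝓝 1) :=
    Pool.Agent.H484R2.pit L
  have hpi : Tendsto (fun x : ℕ => (Nat.primeCounting x : ℝ)) atTop atTop :=
    Pool.Agent.H484R2.primeCounting_tendsto_real
  have hpnt : Tendsto (fun x : ℕ => (Nat.primeCounting x : ℝ) * Real.log x / x) atTop (𝓝 1) := by
    have h := Pool.Agent.Helper923.PNT.pi_tendsto.comp (tendsto_natCast_atTop_atTop (R := ℝ))
    refine h.congr fun n => ?_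
    simp only [Function.comp, Nat.floor_natCast]
  -- difference
  set δ : ℕ → ℝ := fun p => (Nat.card (𝓞 L →+* ZMod p) : ℝ) - c * (if P p then 1 else 0) with hδ
  have hδ0 : ∀ p : ℕ, p.Prime → D < p → δ p = 0 := by
    intro p hp hDp
    have hnd : ¬ p ∣ D := fun h => absurd (Nat.le_of_dvd (Nat.pos_of_ne_zero hD) h) (by omega)
    have h := hcard p hp hnd
    simp only [hδ]
    rw [h]
    by_cases hPp : P p
    · rw [if_pos hPp, if_pos hPp, hc]
      push_cast
      ring
    · rw [if_neg hPp, if_neg hPp]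
      simp
  have hAB : ∀ x, A x - c * B x = ∑ p ∈ Pr x, δ p := by
    intro x
    simp only [hA, hB, hδ, Finset.sum_sub_distrib, ← Finset.mul_sum, Finset.card_filter]
    push_cast
    rfl
  set κ : ℝ := ∑ p ∈ Pr D, δ p with hκ
  have hconst : ∀ x, D ≤ x → A x - c * B x = κ := by
    intro x hx
    rw [hAB, hκ]
    symm
    refine Finset.sum_subset ?_ ?_
    · intro p hp
      simp only [Pr, Finset.mem_filter, Finset.mem_range] at hp ⊢
      exact ⟨by omega, hp.2⟩
    · intro p hp hnp
      simp only [Pr, Finset.mem_filter, Finset.mem_range, not_and] at hp hnp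
      refine hδ0 p hp.2 ?_
      by_contra hle
      exact hnp (by omega) hp.2
  have hκ0 : Tendsto (fun x : ℕ => κ / (Nat.primeCounting x : ℝ)) atTop (𝓝 0) :=
    tendsto_const_nhds.div_atTop hpi
  have h2 : Tendsto (fun x => B x / (Nat.primeCounting x : ℝ)) atTop (𝓝 (1 / c)) := by
    have h3 := (h1.sub hκ0).div_const c
    rw [sub_zero] at h3
    refine h3.congr' ?_
    filter_upwards [eventually_ge_atTop D] with x hx
    have h4 := hconst x hx
    have h5 : A x = c * B x + κ := by linarith
    rw [h5]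
    field_simp
    ring
  have h3 := h2.mul hpnt
  rw [mul_one] at h3
  refine h3.congr' ?_
  filter_upwards [hpi.eventually_gt_atTop 0, eventually_gt_atTop 1] with x hx hx1
  have hx0 : (0 : ℝ) < x := by exact_mod_cast (by omega : 0 < x)
  have hlog : 0 < Real.log x := Real.log_pos (by exact_mod_cast hx1)
  change _ = B x / (x / Real.log x)
  field_simp

end Pool.Agent.K1H24.RG
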